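import Mathlib
import Pool.Agent.H925R2.Core

/-!
# Disjoint conjugate pairs in a family of embeddings
-/

set_option linter.unusedSectionVars false

namespace Pool.Agent.H204R3.GH

open Pool.Agent.H925R2

variable {X : Type*} [Fintype X] [DecidableEq X] {G : Type*} [Group G] [MulAction G X]
  {inv : X → X}

/-- If the weights `w` (zero or one, different on conjugates) of all translates of the family `y` have
sum at least `ν`, then the family contains `ν` disjoint conjugate pairs. -/
theorem exists_pairs (hinv : ∀ x, inv (inv x) = x) (hne : ∀ x, inv x ≠ x)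
    (hG : ∀ (g : G) (x : X), g • inv x = inv (g • x))
    (w : X → ℕ) (hw : ∀ x, w x + w (inv x) = 1)
    (htrans : ∀ H : Finset X, IsHalf inv H → ∃ g : G, ∀ h ∈ H, w (g • h) = 0)
    {κ : Type*} [Fintype κ] [DecidableEq κ] (y : κ → X) (ν : ℕ)
    (hν : ∀ g : G, ν ≤ ∑ k, w (g • y k)) :
    ∃ e : Fin ν × Fin 2 ↪ κ, ∀ l, y (e (l, 1)) = inv (y (e (l, 0))) := by
  classical
  let cnt : X → ℕ := fun x => (Finset.univ.filter (fun k => y k = x)).card
  obtain ⟨H₀, hH₀⟩ := exists_isHalf hinv hne
  let H : Finset X := Finset.univ.filter (fun x => cnt (inv x) < cnt x ∨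
    (cnt (inv x) = cnt x ∧ x ∈ H₀))
  have hHmem : ∀ x, x ∈ H ↔ (cnt (inv x) < cnt x ∨ (cnt (inv x) = cnt x ∧ x ∈ H₀)) := by
    intro x
    simp only [H, Finset.mem_filter, Finset.mem_univ, true_and]
  have hH : IsHalf inv H := by
    intro x
    rw [hHmem, hHmem, hinv]
    have h1 := hH₀ x
    constructor
    · rintro (h2 | ⟨h2, h3⟩) (h4 | ⟨h4, h5⟩)
      · omega
      · omega
      · omega
      · exact (h1.1 h3) h5
    · intro h2
      rw [not_or, not_and] at h2
      rcases lt_trichotomy (cnt (inv x)) (cnt x) with h3 | h3 | h3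
      · exact Or.inl h3
      · exact Or.inr ⟨h3, h1.2 (h2.2 h3.symm)⟩
      · exact absurd h3 h2.1
  have hcnt : ∀ x ∈ H, cnt (inv x) ≤ cnt x := by
    intro x hx
    rcases (hHmem x).1 hx with h | h
    · exact h.le
    · exact h.1.le
  obtain ⟨g, hw0⟩ := htrans H hH
  have hsum : ∑ k, w (g • y k) = (Finset.univ.filter (fun k => y k ∉ H)).card := by
    rw [Finset.card_filter]
    refine Finset.sum_congr rfl fun k _ => ?_
    by_cases h1 : y k ∈ H
    · rw [hw0 _ h1, if_neg (not_not.2 h1)]
    · rw [if_pos h1]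
      have h2 : inv (y k) ∈ H := by
        by_contra h3
        exact h1 ((hH (y k)).2 h3)
      have h3 := hw0 _ h2
      rw [hG] at h3
      have h4 := hw (g • y k)
      omega
  have hT : ν ≤ Fintype.card {k // y k ∉ H} := by
    rw [Fintype.card_subtype, ← hsum]
    exact hν g
  -- partners
  have hemb : ∀ x, x ∉ H → Nonempty ({k // y k = x} ↪ {k // y k = inv x}) := by
    intro x hx
    have h1 : inv x ∈ H := by
      by_contra h2
      exact hx ((hH x).2 h2)
    rw [Function.Embedding.nonempty_iff_card_le, Fintype.card_subtype, Fintype.card_subtype]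
    have h2 := hcnt _ h1
    rw [hinv] at h2
    exact h2
  let emb : ∀ x, x ∉ H → ({k // y k = x} ↪ {k // y k = inv x}) := fun x hx =>
    Classical.choice (hemb x hx)
  let part : {k // y k ∉ H} → κ := fun k => (emb (y k.1) k.2 ⟨k.1, rfl⟩).1
  have hpart : ∀ k, y (part k) = inv (y k.1) := fun k => (emb (y k.1) k.2 ⟨k.1, rfl⟩).2
  have hpart' : ∀ (x : X) (hx : x ∉ H) (k : {k // y k ∉ H}) (hk : y k.1 = x),
      part k = (emb x hx ⟨k.1, hk⟩).1 := by
    intro x hx k hk
    subst hk
    rfl
  have hinj : Function.Injective part := by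
    intro k k' hkk
    have h1 : y k.1 = y k'.1 := by
      rw [← hinv (y k.1), ← hpart k, hkk, hpart, hinv]
    rw [hpart' (y k.1) k.2 k rfl, hpart' (y k.1) k.2 k' h1.symm] at hkk
    have h2 := (emb (y k.1) k.2).injective (Subtype.ext hkk)
    have h3 : k.1 = k'.1 := congrArg (fun z : {m // y m = y k.1} => z.1) h2
    exact Subtype.ext h3
  obtain ⟨i⟩ : Nonempty (Fin ν ↪ {k // y k ∉ H}) := by
    rw [Function.Embedding.nonempty_iff_card_le, Fintype.card_fin]
    exact hT
  have hcross : ∀ k k' : {k // y k ∉ H}, k.1 ≠ part k' := by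
    intro k k' h1
    apply k.2
    rw [h1, hpart]
    by_contra h2
    exact k'.2 ((hH _).2 h2)
  refine ⟨⟨fun z => if z.2 = 0 then (i z.1).1 else part (i z.1), ?_⟩, fun l => ?_⟩
  · rintro ⟨l, s⟩ ⟨l', s'⟩ h1
    dsimp only at h1
    split_ifs at h1 with h2 h3 h3
    · have h4 := i.injective (Subtype.ext h1)
      rw [Prod.mk.injEq]
      exact ⟨h4, by rw [h2, h3]⟩
    · exact absurd h1 (hcross _ _)
    · exact absurd h1.symm (hcross _ _)
    · have h4 := i.injective (hinj h1)
      rw [Prod.mk.injEq]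
      refine ⟨h4, ?_⟩
      have h5 : s = 1 := by omega
      have h6 : s' = 1 := by omega
      rw [h5, h6]
  · have h1 : (1 : Fin 2) ≠ 0 := by decide
    simp only [Function.Embedding.coeFn_mk, if_neg h1, if_true]
    exact hpart _

end Pool.Agent.H204R3.GH
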