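import Mathlib
import Pool.Agent.H204R3.CM.Defs

/-!
# The Hodge coniveau of cohomology classes, wedge products with Hodge classes of degree two, and
conjugate families of CM types
-/

namespace Pool.Agent.H204R3.GH

open NumberField Pool.Agent.H204R3.CM

/-- The real multilinear form `ψ` on the tangent space `T`, with complex values, is of Hodge type
`(p, q)`. -/
def IsOfType {T : Type*} [AddCommGroup T] [Module ℂ T] {n : ℕ} (p q : ℕ)
    (ψ : MultilinearMap ℝ (fun _ : Fin n => T) ℂ) : Prop :=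
  ∀ (z : ℂ) (u : Fin n → T), ψ (fun l => z • u l) = z ^ p * (starRingEnd ℂ z) ^ q * ψ u

/-- Let `T` be the tangent space of a complex torus `A` and `W` its rational homology, with the
inclusion `per : W → T`.  The class `f` in `H^n(A, ℚ)`, that is, the rational alternating form on `W`
in `n` variables, has *Hodge coniveau at least* `ν`: it is the sum of forms of type `(p, q)` with
`p + q = n` and `p ≥ ν`, `q ≥ ν`. -/
def HasConiveau {W T : Type*} [AddCommGroup W] [Module ℚ W] [AddCommGroup T] [Module ℂ T]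
    (per : W →+ T) {n : ℕ} (ν : ℕ) (f : W [⋀^Fin n]→ₗ[ℚ] ℚ) : Prop :=
  ∃ ψ : ℕ → MultilinearMap ℝ (fun _ : Fin n => T) ℂ,
    (∀ p ∈ Finset.Icc ν (n - ν), IsOfType p (n - p) (ψ p)) ∧
      ∀ v : Fin n → W, ((f v : ℚ) : ℂ) = ∑ p ∈ Finset.Icc ν (n - ν), ψ p (fun l => per (v l))

/-- `g` in `H^n(A, ℚ)` is the wedge product of `ν` Hodge classes `B l` of degree two and of a class
`h` in `H^m(A, ℚ)`, `n = 2 ν + m` (up to a nonzero constant factor; the variables of `g` are indexed
by the bijection `e`). -/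
def IsDivisible {W T : Type*} [AddCommGroup W] [Module ℚ W] [AddCommGroup T] [Module ℂ T]
    (per : W →+ T) {n : ℕ} (ν : ℕ) (g : W [⋀^Fin n]→ₗ[ℚ] ℚ) : Prop :=
  ∃ (m : ℕ) (e : (Fin ν × Fin 2) ⊕ Fin m ≃ Fin n) (B : Fin ν → W [⋀^Fin 2]→ₗ[ℚ] ℚ)
    (h : W [⋀^Fin m]→ₗ[ℚ] ℚ), (∀ l, IsHodge per (B l)) ∧
    ∀ v, g v = ∑ σ : Equiv.Perm (Fin n), (Equiv.Perm.sign σ : ℤ) *
      ((∏ l, B l ![v (σ (e (Sum.inl (l, 0)))), v (σ (e (Sum.inl (l, 1))))]) *
        h (fun k => v (σ (e (Sum.inr k)))))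

/-- The generalized Hodge conjecture for the complex torus `A` with divisors: for all `n` and `ν`,
every class in `H^n(A, ℚ)` of Hodge coniveau at least `ν` is a combination with rational coefficients
of wedge products of `ν` Hodge classes of degree two with classes of degree `n - 2 ν`. -/
def ConiveauByDivisors {W T : Type*} [AddCommGroup W] [Module ℚ W] [AddCommGroup T] [Module ℂ T]
    (per : W →+ T) : Prop :=
  ∀ (n ν : ℕ) (f : W [⋀^Fin n]→ₗ[ℚ] ℚ), HasConiveau per ν f →
    f ∈ Submodule.span ℚ {g | IsDivisible per ν g}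

/-- The compositum of the reflex fields of the CM types `Φ i`: the subfield of `ℂ` generated by all
sums `∑_{φ ∈ Φ i} φ(x)` with `x ∈ E i`. -/
noncomputable def reflexField {ι : Type*} {E : ι → Type*} [∀ i, Field (E i)] (Φ : ∀ i, Set (E i →+* ℂ)) :
    IntermediateField ℚ ℂ :=
  IntermediateField.adjoin ℚ {z | ∃ (i : ι) (x : E i), z = ∑ᶠ φ ∈ Φ i, φ x}

end Pool.Agent.H204R3.GH
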