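import Mathlib
import Pool.Agent.H204R3.CM.Coef

/-!
# The Hodge types of the coefficients of a form
-/

set_option linter.unusedSectionVars false
set_option linter.unusedVariables false

namespace Pool.Agent.H204R3.GH

open NumberField Module Pool.Agent.H204R3.CM

noncomputable section

theorem geom_zero {ζ : ℂ} {N : ℕ} (hζ : IsPrimitiveRoot ζ N) (m : ℤ) (hm : ¬ (N : ℤ) ∣ m) :
    ∑ r ∈ Finset.range N, (ζ ^ m) ^ r = 0 := by
  have h1 : ζ ^ m ≠ 1 := by
    intro h
    exact hm ((hζ.zpow_eq_one_iff_dvd m).1 h)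
  have h2 : (ζ ^ m) ^ N = 1 := by
    rw [← zpow_natCast, ← zpow_mul, mul_comm, zpow_mul, zpow_natCast, hζ.pow_eq_one, one_zpow]
  have h3 := geom_sum_mul (ζ ^ m) N
  rw [h2, sub_self] at h3
  exact (mul_eq_zero.1 h3).resolve_right (sub_ne_zero.2 h1)

variable {ι J : Type*} [Fintype J] {E : ι → Type*} [∀ i, Field (E i)] [∀ i, NumberField (E i)]
  {Φ : ∀ i, Set (E i →+* ℂ)} (hΦ : ∀ i, IsCMType (Φ i)) (t : J → ι)
  {κ : Type*} [Fintype κ] [DecidableEq κ]

open Classical in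
include hΦ in
/-- The types of the coefficients of a sum of forms of type `(p, n - p)`, `p ∈ s`. -/
theorem type_of_coeff (c : (κ → XX E t ℂ) → ℂ) (s : Finset ℕ)
    (ψ : ℕ → MultilinearMap ℝ (fun _ : κ => Tan Φ t) ℂ)
    (h1 : ∀ v : κ → (∀ j, E (t j)), ∑ p ∈ s, ψ p (fun l => per Φ t (v l)) =
      ∑ I : κ → XX E t ℂ, c I * ∏ l, chi E t ℂ (v l) (I l))
    (hs : ∀ p ∈ s, p ≤ Fintype.card κ)
    (h2 : ∀ p ∈ s, ∀ z : ℂ, ‖z‖ = 1 → ∀ u : κ → Tan Φ t, ψ p (fun l => z • u l) =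
      z ^ p * (starRingEnd ℂ z) ^ (Fintype.card κ - p) * ψ p u)
    (I : κ → XX E t ℂ) (hI : c I ≠ 0) :
    (Finset.univ.filter (fun l => (I l).2 ∈ Φ (t (I l).1))).card ∈ s := by
  let n := Fintype.card κ
  let F := formOf t c
  let G1 : MultilinearMap ℝ (fun _ : κ => Tan Φ t) ℂ := ∑ p ∈ s, ψ p
  let G2 : MultilinearMap ℝ (fun _ : κ => Tan Φ t) ℂ :=
    (F.restrictScalars ℝ).compLinearMap (fun _ => theta t hΦ)
  have hG : G1 = G2 := by
    refine multilinear_ext_span _ _ _ (span_per t hΦ) ?_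
    intro v hv
    choose w hw using hv
    have hv' : v = fun l => per Φ t (w l) := funext fun l => (hw l).symm
    rw [hv']
    change (∑ p ∈ s, ψ p) (fun l => per Φ t (w l)) =
      formOf t c (fun l => theta t hΦ (per Φ t (w l)))
    rw [_root_.sum_apply, h1, formOf_apply]
    simp only [theta_per]
  have hG' : ∀ u : κ → Tan Φ t, ∑ p ∈ s, ψ p u = F (fun l => theta t hΦ (u l)) := by
    intro u
    have h3 := DFunLike.congr_fun hG u
    rw [← _root_.sum_apply]
    exact h3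
  set k := (Finset.univ.filter (fun l => (I l).2 ∈ Φ (t (I l).1))).card with hk
  by_contra hks
  have hkn : k ≤ n := by
    rw [hk]
    exact Finset.card_le_univ _
  -- the root of unity
  let N : ℕ := 2 * n + 1
  have hN : N ≠ 0 := by omega
  obtain ⟨ζ, hζ⟩ : ∃ ζ : ℂ, IsPrimitiveRoot ζ N := ⟨_, Complex.isPrimitiveRoot_exp N hN⟩
  have hζn : ‖ζ‖ = 1 := hζ.norm'_eq_one hN
  have hζ0 : ζ ≠ 0 := by
    intro h
    rw [h, norm_zero] at hζn
    exact zero_ne_one hζn
  have hconj : starRingEnd ℂ ζ = ζ⁻¹ := by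
    have h3 : ζ * starRingEnd ℂ ζ = 1 := by
      rw [Complex.mul_conj, Complex.normSq_eq_norm_sq, hζn]
      norm_num
    exact eq_inv_of_mul_eq_one_right h3
  let D : ℂ → (XX E t ℂ → ℂ) →ₗ[ℂ] (XX E t ℂ → ℂ) := fun z =>
    { toFun := fun w x => dz t Φ z x * w x
      map_add' := fun a b => by funext x; simp only [Pi.add_apply, mul_add]
      map_smul' := fun a b => by
        funext x
        simp only [Pi.smul_apply, smul_eq_mul, RingHom.id_apply]
        ring }
  let m : ℤ := (n : ℤ) - 2 * k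
  let H : MultilinearMap ℂ (fun _ : κ => XX E t ℂ → ℂ) ℂ :=
    ∑ r ∈ Finset.range N, (ζ ^ m) ^ r • F.compLinearMap (fun _ => D (ζ ^ r))
  have hH : H = 0 := by
    refine multilinear_ext_span _ _ _ (span_chi (E := E) t) ?_
    intro v hv
    choose w hw using hv
    have hv' : v = fun l => theta t hΦ (per Φ t (w l)) :=
      funext fun l => by rw [theta_per, hw l]
    have h3 : ∀ r, F.compLinearMap (fun _ => D (ζ ^ r)) v =
        ∑ p ∈ s, (ζ ^ ((2 * p : ℤ) - n)) ^ r * ψ p (fun l => per Φ t (w l)) := by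
      intro r
      rw [MultilinearMap.compLinearMap_apply, hv']
      have h4 := hG' (fun l => (ζ ^ r) • per Φ t (w l))
      have h5 : (fun l => theta t hΦ ((ζ ^ r) • per Φ t (w l))) =
          fun l => D (ζ ^ r) (theta t hΦ (per Φ t (w l))) := by
        funext l
        exact theta_smul t hΦ _ _
      rw [h5] at h4
      rw [← h4]
      refine Finset.sum_congr rfl fun p hp => ?_
      rw [h2 p hp (ζ ^ r) (by rw [norm_pow, hζn, one_pow])]
      congr 1
      have h6 : ((2 * p : ℤ) - n) = (p : ℤ) - ((Fintype.card κ - p : ℕ) : ℤ) := by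
        have := hs p hp
        push_cast [this]
        ring
      rw [h6, zpow_sub₀ hζ0, zpow_natCast, zpow_natCast, map_pow, hconj, inv_pow, inv_pow,
        div_eq_mul_inv, mul_pow, inv_pow, ← pow_mul, ← pow_mul, ← pow_mul, ← pow_mul,
        mul_comm r p, mul_comm r (Fintype.card κ - p)]
    change H v = 0
    simp only [H]
    rw [_root_.sum_apply]
    simp only [_root_.smul_apply, h3, smul_eq_mul, Finset.mul_sum]
    rw [Finset.sum_comm]
    refine Finset.sum_eq_zero fun p hp => ?_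
    have h7 : ∀ r, (ζ ^ m) ^ r * ((ζ ^ ((2 * p : ℤ) - n)) ^ r * ψ p (fun l => per Φ t (w l))) =
        (ζ ^ (2 * ((p : ℤ) - k))) ^ r * ψ p (fun l => per Φ t (w l)) := by
      intro r
      rw [← mul_assoc, ← mul_pow, ← zpow_add₀ hζ0]
      congr 3
      simp only [m]
      ring
    rw [Finset.sum_congr rfl (fun r _ => h7 r), ← Finset.sum_mul, geom_zero hζ, zero_mul]
    intro h8
    have hpk : p ≠ k := fun h => hks (h ▸ hp)
    have hpn := hs p hp
    have h9 : (2 * ((p : ℤ) - k)) ≠ 0 := by omega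
    have h10 := Int.le_of_dvd (by positivity : (0 : ℤ) < |2 * ((p : ℤ) - k)|) ((dvd_abs _ _).2 h8)
    have h11 : |2 * ((p : ℤ) - k)| ≤ 2 * n := by
      rw [abs_le]
      constructor <;> omega
    simp only [N] at h10
    push_cast at h10
    omega
  have h3 := DFunLike.congr_fun hH (fun l => Pi.single (I l) (1 : ℂ))
  have h4 : ∀ z, (fun l => D z (Pi.single (I l) (1 : ℂ))) =
      fun l => Pi.single (I l) (dz t Φ z (I l)) := by
    intro z
    funext l x
    change dz t Φ z x * (Pi.single (I l) (1 : ℂ) : XX E t ℂ → ℂ) x = _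
    by_cases h : x = I l
    · subst h
      rw [Pi.single_eq_same, Pi.single_eq_same, mul_one]
    · rw [Pi.single_eq_of_ne h, Pi.single_eq_of_ne h, mul_zero]
  have h5 : ∀ z, ∏ l, dz t Φ z (I l) = z ^ k * (starRingEnd ℂ z) ^ (n - k) := by
    intro z
    have h6 : ∀ l, dz t Φ z (I l) = if (I l).2 ∈ Φ (t (I l).1) then z else starRingEnd ℂ z := by
      intro l
      rfl
    rw [Finset.prod_congr rfl (fun l _ => h6 l), Finset.prod_ite, Finset.prod_const,
      Finset.prod_const]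
    congr 2
    rw [Finset.filter_not, Finset.card_sdiff_of_subset (Finset.filter_subset _ _),
      Finset.card_univ]
  simp only [H] at h3
  rw [_root_.sum_apply] at h3
  simp only [_root_.smul_apply, MultilinearMap.compLinearMap_apply, h4, smul_eq_mul,
    _root_.zero_apply] at h3
  have h6 : ∀ r ∈ Finset.range N, (ζ ^ m) ^ r *
      F (fun l => Pi.single (I l) (dz t Φ (ζ ^ r) (I l))) = c I := by
    intro r _
    simp only [F]
    rw [formOf_single, h5, map_pow, hconj]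
    have h7 : (ζ ^ m) ^ r * ((ζ ^ r) ^ k * (ζ⁻¹ ^ r) ^ (n - k)) = 1 := by
      have h8 : (ζ ^ r) ^ k * (ζ⁻¹ ^ r) ^ (n - k) = (ζ ^ ((k : ℤ) - (n - k : ℕ))) ^ r := by
        rw [zpow_sub₀ hζ0, zpow_natCast, zpow_natCast, div_eq_mul_inv, mul_pow, ← pow_mul,
          ← pow_mul, ← pow_mul, inv_pow, inv_pow, ← pow_mul, mul_comm r k,
          mul_comm r (n - k)]
      rw [h8, ← mul_pow, ← zpow_add₀ hζ0]
      have h9 : m + ((k : ℤ) - (n - k : ℕ)) = 0 := by
        simp only [m]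
        push_cast [hkn]
        ring
      rw [h9, zpow_zero, one_pow]
    calc (ζ ^ m) ^ r * (c I * ((ζ ^ r) ^ k * (ζ⁻¹ ^ r) ^ (n - k)))
        = c I * ((ζ ^ m) ^ r * ((ζ ^ r) ^ k * (ζ⁻¹ ^ r) ^ (n - k))) := by ring
      _ = c I := by rw [h7, mul_one]
  rw [Finset.sum_congr rfl h6, Finset.sum_const, Finset.card_range, nsmul_eq_mul] at h3
  rcases mul_eq_zero.1 h3 with h7 | h7
  · exact hN (by exact_mod_cast h7)
  · exact hI h7

open Classical in
include hΦ in
/-- The types of the Galois conjugates of the coefficients of a rational form. -/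
theorem type_of_galois {L : Type*} [Field L] [NumberField L] (j : L →+* ℂ)
    (h : ∀ i, ∀ ψ : E i →+* ℂ, ∃ φ : E i →+* L, j.comp φ = ψ)
    (f : MultilinearMap ℚ (fun _ : κ => ∀ j, E (t j)) ℚ) (s : Finset ℕ)
    (ψ : ℕ → MultilinearMap ℝ (fun _ : κ => Tan Φ t) ℂ)
    (h1 : ∀ v : κ → (∀ j, E (t j)), ((f v : ℚ) : ℂ) = ∑ p ∈ s, ψ p (fun l => per Φ t (v l)))
    (hs : ∀ p ∈ s, p ≤ Fintype.card κ)
    (h2 : ∀ p ∈ s, ∀ z : ℂ, ‖z‖ = 1 → ∀ u : κ → Tan Φ t, ψ p (fun l => z • u l) =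
      z ^ p * (starRingEnd ℂ z) ^ (Fintype.card κ - p) * ψ p u)
    (c : (κ → XX E t L) → L) (hc : ∀ v : κ → ∀ j, E (t j),
      ((f v : ℚ) : L) = ∑ I : κ → XX E t L, c I * ∏ l, chi E t L (v l) (I l))
    (I : κ → XX E t L) (hI : c I ≠ 0) (σ : L ≃ₐ[ℚ] L) :
    (Finset.univ.filter (fun l => j.comp (σ • (I l).2) ∈ Φ (t (I l).1))).card ∈ s := by
  let τ : L →+* ℂ := j.comp (σ : L →+* L)
  have hτ : ∀ i, ∀ ψ : E i →+* ℂ, ∃ φ : E i →+* L, τ.comp φ = ψ := by
    intro i ψ
    obtain ⟨φ, rfl⟩ := h i ψ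
    refine ⟨σ.symm • φ, RingHom.ext fun x => ?_⟩
    change j (σ (σ.symm (φ x))) = j (φ x)
    rw [AlgEquiv.apply_symm_apply]
  let e : (κ → XX E t L) ≃ (κ → XX E t ℂ) := Equiv.arrowCongr (Equiv.refl κ) (xEquiv t τ hτ)
  have h3 := type_of_coeff hΦ t (fun I' => τ (c (e.symm I'))) s ψ (by
    intro v
    rw [← h1 v]
    have h4 := congrArg τ (hc v)
    rw [map_ratCast] at h4
    rw [h4, map_sum]
    refine Fintype.sum_equiv e _ _ fun I => ?_
    rw [map_mul, map_prod, Equiv.symm_apply_apply]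
    rfl) hs h2 (e I) (by
      rw [Equiv.symm_apply_apply]
      exact fun h0 => hI ((map_eq_zero τ).1 h0))
  exact h3

end

end Pool.Agent.H204R3.GH
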