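import Mathlib
import Pool.Agent.H204R3.CM.Main
import Pool.Agent.H204R3.GP.SlopesG
import Pool.Agent.H204R3.GH.Type
import Pool.Agent.H204R3.GH.Core
import Pool.Agent.H204R3.GH.Defs

/-!
# Classes of Hodge coniveau at least `ν` are divisible by `ν` Hodge classes of degree two
-/

set_option linter.unusedSectionVars false
set_option linter.unusedVariables false

namespace Pool.Agent.H204R3.GH

open NumberField Module Equiv Pool.Agent.H204R3.CM Pool.Agent.H204R3.GP Pool.Agent.H925R2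

noncomputable section

variable {W T : Type*} [AddCommGroup W] [Module ℚ W] [AddCommGroup T] [Module ℂ T]

/-- The products of `ν` Hodge bilinear forms with a rational form. -/
def genSet (pr : W →+ T) (ν : ℕ) (κ : Type*) : Set ((κ → W) → ℚ) :=
  {g | ∃ (m : ℕ) (e : (Fin ν × Fin 2) ⊕ Fin m ≃ κ)
    (B : Fin ν → MultilinearMap ℚ (fun _ : Fin 2 => W) ℚ)
    (h : MultilinearMap ℚ (fun _ : Fin m => W) ℚ), (∀ s, HodgeMul pr (B s)) ∧
    g = fun v => (∏ s, B s (fun ε => v (e (Sum.inl (s, ε))))) * h (fun k => v (e (Sum.inr k)))}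

theorem rat_expand {L : Type*} [Field L] [NumberField L] {m : ℕ}
    (g : MultilinearMap ℚ (fun _ : Fin m => W) L) :
    ∃ (N : ℕ) (b : Fin N → L) (h : Fin N → MultilinearMap ℚ (fun _ : Fin m => W) ℚ),
      ∀ v, g v = ∑ s, b s * ((h s v : ℚ) : L) := by
  let β := Module.finBasis ℚ L
  refine ⟨finrank ℚ L, β, fun s => (β.coord s).compMultilinearMap g, fun v => ?_⟩
  conv_lhs => rw [← β.sum_repr (g v)]
  refine Finset.sum_congr rfl fun s _ => ?_
  rw [Rat.smul_def, mul_comm]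
  rfl

/-- The product form. -/
def prodForm {ν m : ℕ} {κ : Type*} (e : (Fin ν × Fin 2) ⊕ Fin m ≃ κ)
    (B : Fin ν → MultilinearMap ℚ (fun _ : Fin 2 => W) ℚ)
    (h : MultilinearMap ℚ (fun _ : Fin m => W) ℚ) : MultilinearMap ℚ (fun _ : κ => W) ℚ :=
  MultilinearMap.domDomCongr e ((LinearMap.mul' ℚ ℚ).compMultilinearMap
    (MultilinearMap.domCoprod (prodMap B) h))

theorem prodForm_apply {ν m : ℕ} {κ : Type*} (e : (Fin ν × Fin 2) ⊕ Fin m ≃ κ)
    (B : Fin ν → MultilinearMap ℚ (fun _ : Fin 2 => W) ℚ)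
    (h : MultilinearMap ℚ (fun _ : Fin m => W) ℚ) (v : κ → W) :
    prodForm e B h v =
      (∏ s, B s (fun ε => v (e (Sum.inl (s, ε))))) * h (fun k => v (e (Sum.inr k))) := by
  unfold prodForm
  rw [MultilinearMap.domDomCongr_apply, LinearMap.compMultilinearMap_apply,
    MultilinearMap.domCoprod_apply, LinearMap.mul'_apply]
  rfl

/-- The alternation of a product. -/
theorem alt_gen {ν m : ℕ} {κ : Type*} [Fintype κ] [DecidableEq κ]
    (e : (Fin ν × Fin 2) ⊕ Fin m ≃ κ)
    (B : Fin ν → MultilinearMap ℚ (fun _ : Fin 2 => W) ℚ)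
    (h : MultilinearMap ℚ (fun _ : Fin m => W) ℚ) (v : κ → W) :
    ∑ σ : Perm κ, ((Perm.sign σ : ℤ) : ℚ) *
      ((∏ s, (MultilinearMap.alternatization (B s)) (fun ε => v (σ (e (Sum.inl (s, ε)))))) *
        (MultilinearMap.alternatization h) (fun k => v (σ (e (Sum.inr k))))) =
    ((2 : ℚ) ^ ν * (m.factorial : ℚ)) * ∑ σ : Perm κ, ((Perm.sign σ : ℤ) : ℚ) *
      ((∏ s, B s (fun ε => v (σ (e (Sum.inl (s, ε)))))) * h (fun k => v (σ (e (Sum.inr k))))) := by
  classical
  let P : (Fin ν → Perm (Fin 2)) → Perm (Fin m) → Perm κ := fun τ ρ =>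
    e.permCongr (Perm.sumCongr (prodCongrRight τ) ρ)
  have hP1 : ∀ τ ρ s ε, P τ ρ (e (Sum.inl (s, ε))) = e (Sum.inl (s, τ s ε)) := by
    intro τ ρ s ε
    simp only [P, Equiv.permCongr_apply, Equiv.symm_apply_apply]
    rfl
  have hP2 : ∀ τ ρ k, P τ ρ (e (Sum.inr k)) = e (Sum.inr (ρ k)) := by
    intro τ ρ k
    simp only [P, Equiv.permCongr_apply, Equiv.symm_apply_apply]
    rfl
  have hP3 : ∀ τ ρ, Perm.sign (P τ ρ) = Perm.sign (prodCongrRight τ) * Perm.sign ρ := by
    intro τ ρ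
    simp only [P, Perm.sign_permCongr, Perm.sign_sumCongr]
  have h1 : ∀ σ : Perm κ,
      (∏ s, (MultilinearMap.alternatization (B s)) (fun ε => v (σ (e (Sum.inl (s, ε)))))) *
        (MultilinearMap.alternatization h) (fun k => v (σ (e (Sum.inr k)))) =
      ∑ x : (Fin ν → Perm (Fin 2)) × Perm (Fin m), ((Perm.sign (P x.1 x.2) : ℤ) : ℚ) *
        ((∏ s, B s (fun ε => v ((σ * P x.1 x.2) (e (Sum.inl (s, ε)))))) *
          h (fun k => v ((σ * P x.1 x.2) (e (Sum.inr k))))) := by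
    intro σ
    have h2 : ∀ s, (MultilinearMap.alternatization (B s)) (fun ε => v (σ (e (Sum.inl (s, ε))))) =
        ∑ τ : Perm (Fin 2), ((Perm.sign τ : ℤ) : ℚ) *
          B s (fun ε => v (σ (e (Sum.inl (s, τ ε))))) := by
      intro s
      rw [MultilinearMap.alternatization_apply]
      refine Finset.sum_congr rfl fun τ _ => ?_
      rw [Units.smul_def, zsmul_eq_mul]
      rfl
    have h3 : (MultilinearMap.alternatization h) (fun k => v (σ (e (Sum.inr k)))) =
        ∑ ρ : Perm (Fin m), ((Perm.sign ρ : ℤ) : ℚ) * h (fun k => v (σ (e (Sum.inr (ρ k))))) := by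
      rw [MultilinearMap.alternatization_apply]
      refine Finset.sum_congr rfl fun τ _ => ?_
      rw [Units.smul_def, zsmul_eq_mul]
      rfl
    rw [Finset.prod_congr rfl (fun s _ => h2 s), Finset.prod_univ_sum, Fintype.piFinset_univ, h3,
      Finset.sum_mul_sum, Fintype.sum_prod_type]
    refine Finset.sum_congr rfl fun τ _ => Finset.sum_congr rfl fun ρ _ => ?_
    rw [Finset.prod_mul_distrib, hP3, Perm.sign_prodCongrRight]
    simp only [Perm.coe_mul, Function.comp_apply, hP1, hP2]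
    push_cast
    ring
  rw [Finset.sum_congr rfl (fun σ _ => by rw [h1 σ, Finset.mul_sum]), Finset.sum_comm]
  have h3 : ∀ x : (Fin ν → Perm (Fin 2)) × Perm (Fin m),
      ∑ σ : Perm κ, ((Perm.sign σ : ℤ) : ℚ) * (((Perm.sign (P x.1 x.2) : ℤ) : ℚ) *
        ((∏ s, B s (fun ε => v ((σ * P x.1 x.2) (e (Sum.inl (s, ε)))))) *
          h (fun k => v ((σ * P x.1 x.2) (e (Sum.inr k)))))) =
      ∑ σ : Perm κ, ((Perm.sign σ : ℤ) : ℚ) *
        ((∏ s, B s (fun ε => v (σ (e (Sum.inl (s, ε)))))) *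
          h (fun k => v (σ (e (Sum.inr k))))) := by
    intro x
    refine Fintype.sum_equiv (Equiv.mulRight (P x.1 x.2)) _ _ ?_
    intro σ
    rw [Equiv.coe_mulRight, map_mul]
    push_cast
    rw [mul_assoc]
  rw [Finset.sum_congr rfl (fun τ _ => h3 τ), Finset.sum_const, Finset.card_univ,
    Fintype.card_prod, Fintype.card_fun, Fintype.card_perm, Fintype.card_perm, Fintype.card_fin,
    Fintype.card_fin, Fintype.card_fin, nsmul_eq_mul]
  push_cast
  norm_num [Nat.factorial]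

section

variable {ι J : Type*} [Fintype ι] [Fintype J] {E : ι → Type*} [∀ i, Field (E i)]
  [∀ i, NumberField (E i)] [∀ i, IsCMField (E i)]
  {L : Type*} [Field L] [NumberField L]
  {Φ : ∀ i, Set (E i →+* ℂ)} (hΦ : ∀ i, IsCMType (Φ i)) (t : J → ι) (j : L →+* ℂ)

/-- The coordinates, as linear maps. -/
def chiLin (x : XX E t L) : (∀ a, E (t a)) →ₗ[ℚ] L :=
  (RingHom.equivRatAlgHom (E (t x.1)) L x.2).toLinearMap.comp (LinearMap.proj x.1)

theorem chiLin_apply (x : XX E t L) (w : ∀ a, E (t a)) : chiLin t x w = chi E t L w x := rfl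

include hΦ in
theorem mono_mem {ν m : ℕ} {κ : Type*} [Fintype κ] (I : κ → XX E t L)
    (e : (Fin ν × Fin 2) ⊕ Fin m ≃ κ)
    (he : ∀ s, (⟨t (I (e (Sum.inl (s, 1)))).1, (I (e (Sum.inl (s, 1)))).2⟩ : Σ i, (E i →+* L)) =
      ⟨t (I (e (Sum.inl (s, 0)))).1, cbar (I (e (Sum.inl (s, 0)))).2⟩) :
    (fun v : κ → ∀ a, E (t a) => ∏ l, chi E t L (v l) (I l)) ∈
      Submodule.span L {g | ∃ s ∈ genSet (per Φ t) ν κ, g = fun x => ((s x : ℚ) : L)} := by
  classical
  have h1 : ∀ s, ∃ (n : ℕ) (a : Fin n → L)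
      (B : Fin n → MultilinearMap ℚ (fun _ : Fin 2 => ∀ a, E (t a)) ℚ),
      (∀ r, HodgeMul (per Φ t) (B r)) ∧ ∀ v : Fin 2 → ∀ a, E (t a),
        chi E t L (v 0) (I (e (Sum.inl (s, 0)))) * chi E t L (v 1) (I (e (Sum.inl (s, 1)))) =
          ∑ r, a r * ((B r v : ℚ) : L) := by
    intro s
    exact pair_expand' hΦ (per Φ t) (t (I (e (Sum.inl (s, 0)))).1) (t (I (e (Sum.inl (s, 1)))).1)
      (LinearMap.proj (I (e (Sum.inl (s, 0)))).1) (LinearMap.proj (I (e (Sum.inl (s, 1)))).1)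
      (tanProj Φ t _) (tanProj Φ t _) (fun w φ => rfl) (fun w φ => rfl)
      (I (e (Sum.inl (s, 0)))).2 (I (e (Sum.inl (s, 1)))).2 (he s)
  choose n a B hB hv using h1
  let g : MultilinearMap ℚ (fun _ : Fin m => ∀ a, E (t a)) L :=
    (MultilinearMap.mkPiAlgebra ℚ (Fin m) L).compLinearMap
      (fun k => chiLin t (I (e (Sum.inr k))))
  obtain ⟨N, b, h, hg⟩ := rat_expand g
  have hg' : ∀ v : κ → ∀ a, E (t a),
      ∏ k, chi E t L (v (e (Sum.inr k))) (I (e (Sum.inr k))) =
        ∑ s, b s * ((h s (fun k => v (e (Sum.inr k))) : ℚ) : L) := by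
    intro v
    rw [← hg]
    rfl
  have h2 : (fun v : κ → ∀ a, E (t a) => ∏ l, chi E t L (v l) (I l)) =
      ∑ x : (∀ s, Fin (n s)) × Fin N, ((∏ s, a s (x.1 s)) * b x.2) •
        (fun v : κ → ∀ a, E (t a) =>
          (((∏ s, B s (x.1 s) (fun ε => v (e (Sum.inl (s, ε))))) *
            h x.2 (fun k => v (e (Sum.inr k))) : ℚ) : L)) := by
    funext v
    rw [Finset.sum_apply, ← Equiv.prod_comp e, Fintype.prod_sum_type, Fintype.prod_prod_type, hg']
    simp only [Fin.prod_univ_two]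
    rw [Finset.prod_congr rfl (fun s _ => hv s (fun ε => v (e (Sum.inl (s, ε))))),
      Finset.prod_univ_sum, Fintype.piFinset_univ, Finset.sum_mul_sum, Fintype.sum_prod_type]
    refine Finset.sum_congr rfl fun ρ _ => Finset.sum_congr rfl fun r _ => ?_
    rw [Finset.prod_mul_distrib, Pi.smul_apply, smul_eq_mul, Rat.cast_mul, Rat.cast_prod]
    ring
  rw [h2]
  refine Submodule.sum_mem _ fun x _ => Submodule.smul_mem _ _ (Submodule.subset_span ?_)
  exact ⟨_, ⟨m, e, fun s => B s (x.1 s), h x.2, fun s => hB s (x.1 s), rfl⟩, rfl⟩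

include hΦ in
/-- The main theorem: classes of Hodge coniveau at least `ν` are divisible by `ν` Hodge classes of
degree two, if all half systems of embeddings are Galois conjugate to `Φ`. -/
theorem mem_span_divisible (h : ∀ i, ∀ ψ : E i →+* ℂ, ∃ φ : E i →+* L, j.comp φ = ψ)
    (htrans : ∀ H : Finset (Σ i, (E i →+* L)), IsHalf bar H →
      ∃ g : L ≃ₐ[ℚ] L, ∀ x ∈ H, j.comp (g • x.2) ∈ Φ x.1)
    {n : ℕ} (ν : ℕ) (f : (∀ a, E (t a)) [⋀^Fin n]→ₗ[ℚ] ℚ) (hf : HasConiveau (per Φ t) ν f) :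
    f ∈ Submodule.span ℚ {g | IsDivisible (per Φ t) ν g} := by
  classical
  obtain ⟨ψ, hψ1, hψ2⟩ := hf
  obtain ⟨c, hc⟩ := form_coeff t j h f.toMultilinearMap
  -- the pairs
  have hpairs : ∀ I : Fin n → XX E t L, c I ≠ 0 →
      ∃ (m : ℕ) (e : (Fin ν × Fin 2) ⊕ Fin m ≃ Fin n),
        ∀ s, (⟨t (I (e (Sum.inl (s, 1)))).1, (I (e (Sum.inl (s, 1)))).2⟩ : Σ i, (E i →+* L)) =
          ⟨t (I (e (Sum.inl (s, 0)))).1, cbar (I (e (Sum.inl (s, 0)))).2⟩ := by
    intro I hI
    have h1 := type_of_galois hΦ t j h f.toMultilinearMap (Finset.Icc ν (n - ν)) ψ hψ2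
      (fun p hp => by
        rw [Finset.mem_Icc] at hp
        rw [Fintype.card_fin]
        omega)
      (fun p hp z _ u => by
        rw [Fintype.card_fin]
        exact hψ1 p hp z u) c hc I hI
    let w : (Σ i, (E i →+* L)) → ℕ := fun x => if j.comp x.2 ∈ Φ x.1 then 0 else 1
    let y : Fin n → Σ i, (E i →+* L) := fun l => ⟨t (I l).1, (I l).2⟩
    have hw : ∀ x, w x + w (bar x) = 1 := by
      rintro ⟨i, φ⟩
      simp only [w, bar, comp_cbar]
      by_cases h4 : j.comp φ ∈ Φ i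
      · rw [if_pos h4, if_neg ((hΦ i _).1 h4)]
      · rw [if_neg h4, if_pos (conj_mem hΦ h4)]
    have hν : ∀ g : L ≃ₐ[ℚ] L, ν ≤ ∑ k, w (g • y k) := by
      intro g
      have h2 := h1 g
      rw [Finset.mem_Icc] at h2
      have h3 : (Finset.univ.filter (fun l => j.comp (g • (I l).2) ∈ Φ (t (I l).1))).card +
          ∑ k, w (g • y k) = n := by
        rw [Finset.card_filter, ← Finset.sum_add_distrib]
        have h4 : ∀ k : Fin n, (if j.comp (g • (I k).2) ∈ Φ (t (I k).1) then 1 else 0) +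
            w (g • y k) = 1 := by
          intro k
          change _ + (if j.comp (g • (I k).2) ∈ Φ (t (I k).1) then 0 else 1) = 1
          split_ifs <;> rfl
        rw [Finset.sum_congr rfl (fun k _ => h4 k), Finset.sum_const, Finset.card_univ,
          Fintype.card_fin, smul_eq_mul, mul_one]
      omega
    obtain ⟨e, he⟩ := exists_pairs (G := L ≃ₐ[ℚ] L) bar_bar bar_ne (fun g x => rfl) w hw
      (fun H hH => by
        obtain ⟨g, hg⟩ := htrans H hH
        refine ⟨g, fun x hx => ?_⟩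
        change (if j.comp (g • x.2) ∈ Φ x.1 then 0 else 1) = 0
        rw [if_pos (hg x hx)]) y ν hν
    let S : Set (Fin n) := Set.range e
    let e' : (Fin ν × Fin 2) ⊕ Fin (Fintype.card ↥Sᶜ) ≃ Fin n :=
      (Equiv.sumCongr (Equiv.ofInjective e e.injective) (Fintype.equivFin ↥Sᶜ).symm).trans
        (Equiv.Set.sumCompl S)
    exact ⟨_, e', fun s => he s⟩
  -- membership in the span over `L`
  have hL : (fun v : Fin n → ∀ a, E (t a) => ((f v : ℚ) : L)) ∈
      Submodule.span L {g | ∃ s ∈ genSet (per Φ t) ν (Fin n), g = fun x => ((s x : ℚ) : L)} := by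
    have h1 : (fun v : Fin n → ∀ a, E (t a) => ((f v : ℚ) : L)) =
        ∑ I : Fin n → XX E t L, c I •
          (fun v : Fin n → ∀ a, E (t a) => ∏ l, chi E t L (v l) (I l)) := by
      funext v
      rw [Finset.sum_apply]
      exact hc v
    rw [h1]
    refine Submodule.sum_mem _ fun I _ => ?_
    by_cases hI : c I = 0
    · rw [hI, zero_smul]
      exact Submodule.zero_mem _
    · obtain ⟨m, e, he⟩ := hpairs I hI
      exact Submodule.smul_mem _ _ (mono_mem hΦ t I e he)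
  have hQ := span_descent _ _ hL
  -- alternation
  have hA : altFun (R := ℚ) (fun v => f v) ∈
      Submodule.map (altFun (R := ℚ)) (Submodule.span ℚ (genSet (per Φ t) ν (Fin n))) :=
    Submodule.mem_map_of_mem hQ
  rw [Submodule.map_span, altFun_alt] at hA
  let K : ((∀ a, E (t a)) [⋀^Fin n]→ₗ[ℚ] ℚ) →ₗ[ℚ] ((Fin n → ∀ a, E (t a)) → ℚ) :=
    { toFun := fun g v => g v
      map_add' := fun _ _ => rfl
      map_smul' := fun _ _ => rfl }
  have hKinj : Function.Injective K := fun g g' h => AlternatingMap.ext fun v => congrFun h v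
  have hsub : altFun (R := ℚ) '' genSet (per Φ t) ν (Fin n) ⊆
      (Submodule.span ℚ {g | IsDivisible (per Φ t) ν g}).map K := by
    rintro _ ⟨_, ⟨m, e, B, h', hB, rfl⟩, rfl⟩
    let A : Fin ν → (∀ a, E (t a)) [⋀^Fin 2]→ₗ[ℚ] ℚ := fun s =>
      MultilinearMap.alternatization (B s)
    let h'' : (∀ a, E (t a)) [⋀^Fin m]→ₗ[ℚ] ℚ := MultilinearMap.alternatization h'
    let g : (∀ a, E (t a)) [⋀^Fin n]→ₗ[ℚ] ℚ :=
      MultilinearMap.alternatization
        (prodForm e (fun s => (A s).toMultilinearMap) h''.toMultilinearMap)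
    have hg : ∀ v, g v = ∑ σ : Perm (Fin n), ((Perm.sign σ : ℤ) : ℚ) *
        ((∏ s, A s (fun ε => v (σ (e (Sum.inl (s, ε)))))) *
          h'' (fun k => v (σ (e (Sum.inr k))))) := by
      intro v
      change MultilinearMap.alternatization _ v = _
      rw [MultilinearMap.alternatization_apply]
      refine Finset.sum_congr rfl fun σ _ => ?_
      rw [Units.smul_def, zsmul_eq_mul]
      congr 1
    have hgT : IsDivisible (per Φ t) ν g := by
      refine ⟨m, e, A, h'', fun s => (hB s).alternatization, fun v => ?_⟩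
      rw [hg v]
      refine Finset.sum_congr rfl fun σ _ => ?_
      have h5 : ∀ s, (fun ε => v (σ (e (Sum.inl (s, ε))))) =
          ![v (σ (e (Sum.inl (s, 0)))), v (σ (e (Sum.inl (s, 1))))] := by
        intro s
        funext ε
        fin_cases ε <;> rfl
      simp only [h5]
    refine ⟨((2 : ℚ) ^ ν * (m.factorial : ℚ))⁻¹ • g,
      Submodule.smul_mem _ _ (Submodule.subset_span hgT), ?_⟩
    rw [map_smul]
    funext v
    have h2 : (K g) v = ((2 : ℚ) ^ ν * (m.factorial : ℚ)) *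
        ∑ σ : Perm (Fin n), ((Perm.sign σ : ℤ) : ℚ) *
        ((∏ s, B s (fun ε => v (σ (e (Sum.inl (s, ε)))))) *
          h' (fun k => v (σ (e (Sum.inr k))))) := by
      change g v = _
      rw [hg v]
      exact alt_gen e B h' v
    rw [Pi.smul_apply, h2, smul_eq_mul]
    have h6 : ((2 : ℚ) ^ ν * (m.factorial : ℚ)) ≠ 0 :=
      mul_ne_zero (by positivity) (Nat.cast_ne_zero.2 (Nat.factorial_ne_zero _))
    rw [← mul_assoc, inv_mul_cancel₀ h6, one_mul]
    rfl
  have h1 : ((Fintype.card (Fin n)).factorial : ℚ) • (fun v => f v) ∈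
      (Submodule.span ℚ {g | IsDivisible (per Φ t) ν g}).map K := Submodule.span_le.2 hsub hA
  have hne : ((Fintype.card (Fin n)).factorial : ℚ) ≠ 0 :=
    Nat.cast_ne_zero.2 (Nat.factorial_ne_zero _)
  have h2 : (fun v => f v) ∈ (Submodule.span ℚ {g | IsDivisible (per Φ t) ν g}).map K := by
    have h3 := Submodule.smul_mem _ (((Fintype.card (Fin n)).factorial : ℚ))⁻¹ h1
    rwa [smul_smul, inv_mul_cancel₀ hne, one_smul] at h3
  obtain ⟨f', hf', hff⟩ := h2
  have h3 : f' = f := hKinj hff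
  rw [← h3]
  exact hf'

end

end

end Pool.Agent.H204R3.GH
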