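import Mathlib
import Pool.Agent.H204R3.GH.Main

/-!
# The condition on the reflex fields
-/

set_option linter.unusedSectionVars false
set_option linter.unusedVariables false

namespace Pool.Agent.H204R3.GH

open NumberField Module Equiv Pool.Agent.H204R3.CM Pool.Agent.H204R3.GP Pool.Agent.H925R2
open scoped Pointwise

noncomputable section

/-- The number of half systems. -/
theorem card_half_le {X : Type*} [Fintype X] [DecidableEq X] {inv : X → X}
    (hinv : ∀ x, inv (inv x) = x) {H₀ : Finset X} (hH₀ : IsHalf inv H₀) (𝓗 : Finset (Finset X))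
    (h𝓗 : ∀ H ∈ 𝓗, IsHalf inv H) : 𝓗.card ≤ 2 ^ H₀.card := by
  rw [← Finset.card_powerset]
  refine Finset.card_le_card_of_injOn (fun H => H ∩ H₀)
    (fun H _ => Finset.mem_coe.2 (Finset.mem_powerset.2 Finset.inter_subset_right)) ?_
  intro H hH H' hH' hh
  have h1 : ∀ x ∈ H₀, (x ∈ H ↔ x ∈ H') := by
    intro x hx
    have h2 := Finset.ext_iff.1 hh x
    simp only [Finset.mem_inter, hx, and_true] at h2
    exact h2
  ext x
  by_cases hx : x ∈ H₀
  · exact h1 x hx
  · have h2 : inv x ∈ H₀ := by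
      by_contra h3
      exact hx ((hH₀ x).2 h3)
    rw [h𝓗 H hH x, h𝓗 H' hH' x, h1 _ h2]

variable {ι : Type*} [Fintype ι] {E : ι → Type*} [∀ i, Field (E i)]
  [∀ i, NumberField (E i)] [∀ i, IsCMField (E i)]
  {L : Type*} [Field L] [NumberField L] [IsGalois ℚ L]
  {Φ : ∀ i, Set (E i →+* ℂ)} (hΦ : ∀ i, IsCMType (Φ i)) (j : L →+* ℂ)

include hΦ in
theorem trans_of_reflex (h : ∀ i, ∀ ψ : E i →+* ℂ, ∃ φ : E i →+* L, j.comp φ = ψ)
    (hreflex : 2 ^ ((∑ i, finrank ℚ (E i)) / 2) ≤ finrank ℚ (reflexField Φ)) :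
    ∀ H : Finset (Σ i, (E i →+* L)), IsHalf bar H →
      ∃ g : L ≃ₐ[ℚ] L, ∀ x ∈ H, j.comp (g • x.2) ∈ Φ x.1 := by
  classical
  let H₀ : Finset (Σ i, (E i →+* L)) := Finset.univ.filter (fun x => j.comp x.2 ∈ Φ x.1)
  have hmem : ∀ x, x ∈ H₀ ↔ j.comp x.2 ∈ Φ x.1 := by
    intro x
    simp only [H₀, Finset.mem_filter, Finset.mem_univ, true_and]
  have hH₀ : IsHalf bar H₀ := by
    rintro ⟨i, φ⟩
    rw [hmem, hmem]
    change j.comp φ ∈ Φ i ↔ j.comp (cbar φ) ∉ Φ i
    rw [comp_cbar]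
    exact hΦ i _
  let S : Subgroup (L ≃ₐ[ℚ] L) := MulAction.stabilizer (L ≃ₐ[ℚ] L) H₀
  let jA : L →ₐ[ℚ] ℂ := RingHom.equivRatAlgHom L ℂ j
  -- the reflex field is contained in the fixed field of the stabilizer
  have hle : reflexField Φ ≤ (IntermediateField.fixedField S).map jA := by
    refine IntermediateField.adjoin_le_iff.2 ?_
    rintro _ ⟨i, x, rfl⟩
    refine ⟨∑ φ : E i →+* L, (if j.comp φ ∈ Φ i then φ x else 0), ?_, ?_⟩
    · rintro ⟨σ, hσ⟩
      change σ (∑ φ : E i →+* L, (if j.comp φ ∈ Φ i then φ x else 0)) = _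
      rw [map_sum]
      refine Fintype.sum_equiv (MulAction.toPerm σ : Perm (E i →+* L)) _ _ fun φ => ?_
      have h1 : j.comp φ ∈ Φ i ↔ j.comp (σ • φ) ∈ Φ i := by
        have h2 : σ • H₀ = H₀ := hσ
        have h3 := hmem ⟨i, φ⟩
        have h4 := hmem (σ • (⟨i, φ⟩ : Σ i, (E i →+* L)))
        rw [← h3, show j.comp (σ • φ) ∈ Φ i ↔ _ from h4.symm]
        conv_rhs => rw [← h2]
        exact (Finset.smul_mem_smul_finset_iff σ).symm
      rw [MulAction.toPerm_apply]
      by_cases h5 : j.comp φ ∈ Φ i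
      · rw [if_pos h5, if_pos (h1.1 h5)]
        rfl
      · rw [if_neg h5, if_neg (fun h6 => h5 (h1.2 h6)), map_zero]
    · change j (∑ φ : E i →+* L, (if j.comp φ ∈ Φ i then φ x else 0)) = _
      rw [finsum_mem_def, finsum_eq_sum_of_fintype, map_sum]
      refine Fintype.sum_equiv (embEquiv j (h i)) _ _ fun φ => ?_
      have h1 : embEquiv j (h i) φ = j.comp φ := rfl
      rw [h1, Set.indicator_apply]
      split_ifs
      · rfl
      · exact map_zero j
  have hfin : finrank ℚ (reflexField Φ) ≤ finrank ℚ (IntermediateField.fixedField S) := by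
    have e := IntermediateField.equivMap (IntermediateField.fixedField S) jA
    have h1 : FiniteDimensional ℚ ((IntermediateField.fixedField S).map jA) :=
      Module.Finite.equiv e.toLinearEquiv
    rw [e.toLinearEquiv.finrank_eq]
    exact LinearMap.finrank_le_finrank_of_injective
      (f := (IntermediateField.inclusion hle).toLinearMap) (IntermediateField.inclusion hle).injective
  have horb : finrank ℚ (IntermediateField.fixedField S) =
      (MulAction.orbit (L ≃ₐ[ℚ] L) H₀).ncard := by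
    have h1 := Module.finrank_mul_finrank ℚ (IntermediateField.fixedField S) L
    rw [IntermediateField.finrank_fixedField_eq_card, ← IsGalois.card_aut_eq_finrank ℚ L] at h1
    have h2 := MulAction.index_stabilizer (L ≃ₐ[ℚ] L) H₀
    have h3 := Subgroup.index_mul_card S
    rw [← h3] at h1
    have h4 := mul_right_cancel₀ (Nat.card_pos.ne') h1
    rw [h4]
    exact h2
  let 𝓗 : Finset (Finset (Σ i, (E i →+* L))) := Finset.univ.filter (fun H => IsHalf bar H)
  have h𝓗 : 𝓗.card ≤ 2 ^ ((∑ i, finrank ℚ (E i)) / 2) := by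
    have h1 := card_half_le bar_bar hH₀ 𝓗 (fun H hH => (Finset.mem_filter.1 hH).2)
    have h2 := hH₀.card bar_bar
    rw [Fintype.card_sigma, Finset.sum_congr rfl (fun i _ => card_emb j (h i))] at h2
    rw [h2, Nat.mul_div_cancel_left _ (by norm_num : 0 < 2)]
    exact h1
  have hsub : (MulAction.orbit (L ≃ₐ[ℚ] L) H₀).toFinset ⊆ 𝓗 := by
    intro H hH
    rw [Set.mem_toFinset] at hH
    obtain ⟨g, rfl⟩ := hH
    refine Finset.mem_filter.2 ⟨Finset.mem_univ _, fun x => ?_⟩
    change x ∈ g • H₀ ↔ bar x ∉ g • H₀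
    rw [← Finset.inv_smul_mem_iff, ← Finset.inv_smul_mem_iff]
    exact hH₀ (g⁻¹ • x)
  have heq : (MulAction.orbit (L ≃ₐ[ℚ] L) H₀).toFinset = 𝓗 := by
    refine Finset.eq_of_subset_of_card_le hsub ?_
    rw [← Set.ncard_eq_toFinset_card', ← horb]
    omega
  intro H hH
  have h1 : H ∈ (MulAction.orbit (L ≃ₐ[ℚ] L) H₀).toFinset := by
    rw [heq]
    exact Finset.mem_filter.2 ⟨Finset.mem_univ _, hH⟩
  rw [Set.mem_toFinset] at h1
  obtain ⟨g, hg⟩ := h1
  refine ⟨g⁻¹, fun x hx => ?_⟩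
  have h2 : g • H₀ = H := hg
  rw [← h2, ← Finset.inv_smul_mem_iff] at hx
  exact (hmem _).1 hx

end

end Pool.Agent.H204R3.GH
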